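import Pool.Graph.R_seed8.B595.CM
import Pool.Agent.H49.IA.Sum
import Pool.Agent.H49.IA.Atoms
import Pool.Agent.H49.IA.Lower

/-!
The norm `I(α)` of the symbol `(1-|ξ|)^α` on `[-1,1]` near `α = 1`: with `ε = 1 - α`,
`1 + (1/2) (ε/4)^(1/ε) ≤ I(α)` for `0 < α < 1` and `I(α) ≤ 1 + 15 (4ε)^(1/ε)` for `1/2 ≤ α < 1`.

Upper bound: the extension of `(1-|ξ|)^α` which is odd about `ξ = 1` and has period four has cosine
coefficients whose negative ones only occur at frequencies above `(4ε)^(-1/ε)`.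
Lower bound: compare the second difference of the transform at `1 - s` with the one at `0`,
`s = (ε/4)^(1/ε)`.
-/

open MeasureTheory Filter Topology

namespace Pool.Agent.Results.MP_1b8a6f_an.NearOne

open Pool.Agent.H49.IA

/-- The set of the total variation norms `‖μ‖` of all complex Borel measures `μ` of bounded
variation on the line whose Fourier transform `∫ exp(-ixξ) dμ(x)` equals `(1-|ξ|)^α` for all
`ξ ∈ [-1,1]`. -/
def norms (α : ℝ) : Set ℝ :=
  {V | ∃ μ : ComplexMeasure ℝ, μ.variation Set.univ ≠ ⊤ ∧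
    (∀ ξ ∈ Set.Icc (-1:ℝ) 1,
      ∫ᵛ x, Complex.exp (-(Complex.I * (x:ℂ) * (ξ:ℂ))) ∂[ContinuousLinearMap.mul ℝ ℂ; μ]
        = (((1 - |ξ|) ^ α : ℝ) : ℂ)) ∧
    V = (μ.variation Set.univ).toReal}

/-- `I(α)`, the infimum of the norms. -/
noncomputable def I (α : ℝ) : ℝ := sInf (norms α)

lemma exp_bdd (x ξ : ℝ) : ‖Complex.exp (-(Complex.I * (x:ℂ) * (ξ:ℂ)))‖ ≤ 1 := by
  rw [Complex.norm_exp]
  simp

lemma lower_mem {α : ℝ} (hα0 : 0 < α) (hα1 : α < 1) {V : ℝ} (hV : V ∈ norms α) :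
    1 + 1/2 * ((1 - α) / 4) ^ (1 / (1 - α)) ≤ V := by
  obtain ⟨μ, hμ, hrep, rfl⟩ := hV
  obtain ⟨h, hh, hμh⟩ := B595.exists_density μ hμ
  have hfin : IsFiniteMeasure μ.variation := ⟨lt_top_iff_ne_top.2 hμ⟩
  have hvar : μ.variation = μ.variation.withDensity (fun x => ‖h x‖ₑ) := by
    conv_lhs => rw [hμh]
    exact Measure.variation_withDensityᵥ hh
  have hnorm : (μ.variation Set.univ).toReal = ∫ x, ‖h x‖ ∂μ.variation := by
    conv_lhs => rw [hvar]
    rw [withDensity_apply _ MeasurableSet.univ, Measure.restrict_univ,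
      integral_norm_eq_lintegral_enorm hh.aestronglyMeasurable]
  rw [hnorm]
  apply lower hα0 hα1 hh
  intro ξ hξ
  rw [← hrep ξ hξ]
  have hint : Integrable (fun x : ℝ => Complex.exp (-(Complex.I * (x:ℂ) * (ξ:ℂ))))
      (μ.variation.withDensity (fun x => ‖h x‖ₑ)) := by
    rw [← hvar]
    exact Integrable.of_bound (Continuous.aestronglyMeasurable (by fun_prop)) 1
      (Filter.Eventually.of_forall fun x => exp_bdd x ξ)
  unfold FT
  rw [← B595.integral_withDensityV hh hint, ← hμh]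

lemma attained {α : ℝ} {ν : Measure ℝ} {h : ℝ → ℂ} (hν : IsFiniteMeasure ν) (hh : Integrable h ν)
    (hrep : ∀ ξ ∈ Set.Icc (-1:ℝ) 1, ∫ x, Complex.exp (-(Complex.I * x * ξ)) * h x ∂ν
        = (((1 - |ξ|) ^ α : ℝ) : ℂ)) : (∫ x, ‖h x‖ ∂ν) ∈ norms α := by
  have hvar : (ν.withDensityᵥ h).variation = ν.withDensity (fun x => ‖h x‖ₑ) :=
    Measure.variation_withDensityᵥ hh
  have hfin : IsFiniteMeasure (ν.withDensity fun x ↦ ‖h x‖ₑ) := ⟨by simpa using! hh.2⟩
  refine ⟨ν.withDensityᵥ h, ?_, ?_, ?_⟩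
  · rw [hvar]; exact measure_ne_top _ _
  · intro ξ hξ
    rw [← hrep ξ hξ]
    apply B595.integral_withDensityV hh
    exact Integrable.of_bound (Continuous.aestronglyMeasurable (by fun_prop)) 1
      (Filter.Eventually.of_forall fun x => exp_bdd x ξ)
  · rw [hvar, withDensity_apply _ MeasurableSet.univ, Measure.restrict_univ,
      integral_norm_eq_lintegral_enorm hh.aestronglyMeasurable]

lemma upper_mem {α : ℝ} (hα : 1/2 ≤ α) (hα1 : α < 1) : (∑' n, |w α n|) ∈ norms α := by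
  have hpi := Real.pi_pos
  set s : ℕ → ℝ := fun n => if w α n < 0 then -1 else 1 with hs
  set σ : ℝ → ℝ := fun x => s ⌊|x| * 2 / Real.pi + 1 / 2⌋₊ with hσ
  have hσm : Measurable σ := by
    have h1 : Measurable s := measurable_of_countable s
    exact h1.comp (Nat.measurable_floor.comp (by fun_prop))
  have hs1 : ∀ n, |s n| = 1 := by
    intro n
    rw [hs]; simp only
    split_ifs <;> simp
  have hσl : ∀ n : ℕ, σ (Real.pi * n / 2) = s n := by
    intro n
    rw [hσ]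
    simp only
    congr 1
    rw [abs_of_nonneg (by positivity), show Real.pi * n / 2 * 2 / Real.pi = n by field_simp]
    rw [Nat.floor_eq_iff (by positivity)]
    constructor <;> linarith
  obtain ⟨ν, h, h1, h2, h3, h4⟩ := atoms (T := fun ξ => (1 - |ξ|) ^ α) (w α)
    (fun n => Real.pi * n / 2) (w_summable hα hα1) σ hσm (fun x => hs1 _)
    (fun x => by rw [hσ]; simp only [abs_neg]) (fun n => by
      rw [hσl, hs]; simp only
      split_ifs with h
      · rw [abs_of_neg h]; ring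
      · rw [abs_of_nonneg (not_lt.1 h)]; ring)
    (fun ξ hξ => hasSum_zero_int (by linarith) (coef_summable hα hα1) (abs_le.2 hξ))
  rw [← h4]
  exact attained h1 h2 h3

theorem result :
    (∀ α : ℝ, 0 < α → α < 1 → ∀ V ∈ norms α,
      1 + 1/2 * ((1 - α) / 4) ^ (1 / (1 - α)) ≤ V) ∧
    (∀ α : ℝ, 1/2 ≤ α → α < 1 → (norms α).Nonempty ∧
      1 + 1/2 * ((1 - α) / 4) ^ (1 / (1 - α)) ≤ I α ∧
      I α ≤ 1 + 15 * (4 * (1 - α)) ^ (1 / (1 - α))) := by
  refine ⟨fun α h0 h1 V hV => lower_mem h0 h1 hV, fun α hα hα1 => ?_⟩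
  have hm := upper_mem hα hα1
  have h0 : 0 < α := by linarith
  refine ⟨⟨_, hm⟩, le_csInf ⟨_, hm⟩ fun V hV => lower_mem h0 hα1 hV, ?_⟩
  refine (csInf_le ⟨_, fun V hV => lower_mem h0 hα1 hV⟩ hm).trans (norm_bound hα hα1)

end Pool.Agent.Results.MP_1b8a6f_an.NearOne
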